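import Pool.Agent.H82.HD.TA
import Pool.Agent.H90.G.RLO

/-!
Board hds_modules, row RLW: reverse local orthogonality on balls of radius `R^{1/2}`, with weights.
-/

set_option autoImplicit false

namespace Pool.Agent.H25.HDS

open MeasureTheory Set Pool.Agent.H83.G Pool.Agent.H90.G.RLO
open Pool.Agent.H82.HD (T_RLW)
open scoped ENNReal NNReal RealInnerProductSpace

section

variable {m : ℕ}

theorem Lo_zero_one (z : Z m) : Lo (0 : E m) 1 z = z := by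
  simp [Lo]

theorem zc_le {n : ℕ} {l : Zi m} (hl : l ∈ bx m n) : ‖zc l‖ ≤ ((m : ℝ) + 1) * n := by
  unfold bx at hl
  rw [Finset.mem_product, Finset.mem_product] at hl
  obtain ⟨h1, h2, h3⟩ := hl
  have hn0 : (0 : ℝ) ≤ n := Nat.cast_nonneg n
  have hm0 : (0 : ℝ) ≤ m := Nat.cast_nonneg m
  have habs : ∀ a : ℤ, a ∈ Finset.Icc (-(n : ℤ)) n → |(a : ℝ)| ≤ n := by
    intro a ha
    rw [Finset.mem_Icc] at ha
    rw [abs_le]
    constructor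
    · exact_mod_cast ha.1
    · exact_mod_cast ha.2
  have hn : (n : ℝ) ≤ ((m : ℝ) + 1) * n := by nlinarith [mul_nonneg hm0 hn0]
  rw [Prod.norm_def, Prod.norm_def]
  refine max_le ((habs _ h1).trans hn) (max_le ?_ ((habs _ h3).trans hn))
  rw [Fintype.mem_piFinset] at h2
  show ‖(WithLp.toLp 2 (fun i => (l.2.1 i : ℝ)) : E m)‖ ≤ _
  rw [EuclideanSpace.norm_eq]
  refine Real.sqrt_le_iff.2 ⟨by positivity, ?_⟩
  calc ∑ i, ‖(WithLp.toLp 2 (fun i => (l.2.1 i : ℝ)) : E m) i‖ ^ 2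
      ≤ ∑ _i : Fin m, (n : ℝ) ^ 2 := by
        refine Finset.sum_le_sum fun i _ => ?_
        exact pow_le_pow_left₀ (norm_nonneg _) (habs _ (h2 i)) 2
    _ = m * (n : ℝ) ^ 2 := by
        rw [Finset.sum_const, Finset.card_univ, Fintype.card_fin, nsmul_eq_mul]
    _ ≤ (((m : ℝ) + 1) * n) ^ 2 := by
        rw [mul_pow]
        refine mul_le_mul_of_nonneg_right ?_ (by positivity)
        nlinarith

/-- the cutoff is controlled by the weight -/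
theorem ka_le_wt (hSCH : T_SCH) (hWT1 : T_WT1) {Ψ : Z m → ℂ} {ψ : Z m → ℝ} (hΨ : IsPsi Ψ ψ)
    (N : ℕ) : ∃ C : ℝ, 0 < C ∧ ∀ (n : ℕ) (u : Z m), 1 ≤ n →
      ka ψ n u ≤ C * (n : ℝ) ^ (m + 2 + N) * wt N u := by
  obtain ⟨C₁, hC₁, hψ⟩ := psi_le hSCH hΨ N
  refine ⟨C₁ * (3 ^ (m + 2) * ((m : ℝ) + 2) ^ N), by positivity, fun n u hn => ?_⟩
  have hn1 : (1 : ℝ) ≤ n := by exact_mod_cast hn
  have hm0 : (0 : ℝ) ≤ m := Nat.cast_nonneg m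
  have hw0 : 0 < wt N u := ((hWT1 m N).1 u).1
  have hterm : ∀ j ∈ bx m n, ψ (u - zc j) ≤ C₁ * ((((m : ℝ) + 2) * n) ^ N * wt N u) := by
    intro j hj
    have h1 := (hWT1 m N).2.2.1 (u - zc j) (zc j)
    rw [sub_add_cancel] at h1
    have h2 : wt N (zc j) = ((1 + ‖zc j‖) ^ N)⁻¹ := rfl
    have h3 : (0 : ℝ) < (1 + ‖zc j‖) ^ N := by positivity
    rw [h2, ← div_eq_mul_inv, div_le_iff₀ h3] at h1
    have h4 : 1 + ‖zc j‖ ≤ ((m : ℝ) + 2) * n := by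
      have := zc_le hj
      linarith
    have h5 : (1 + ‖zc j‖) ^ N ≤ (((m : ℝ) + 2) * n) ^ N :=
      pow_le_pow_left₀ (by positivity) h4 N
    calc ψ (u - zc j) ≤ C₁ * wt N (u - zc j) := hψ _
      _ ≤ C₁ * (wt N u * (1 + ‖zc j‖) ^ N) := mul_le_mul_of_nonneg_left h1 hC₁.le
      _ ≤ C₁ * (wt N u * (((m : ℝ) + 2) * n) ^ N) :=
          mul_le_mul_of_nonneg_left (mul_le_mul_of_nonneg_left h5 hw0.le) hC₁.le
      _ = _ := by ring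
  have hcard : ((bx m n).card : ℝ) ≤ (3 * (n : ℝ)) ^ (m + 2) := by
    rw [bx_card]
    push_cast
    exact pow_le_pow_left₀ (by positivity) (by linarith) _
  calc ka ψ n u = ∑ j ∈ bx m n, ψ (u - zc j) := rfl
    _ ≤ ∑ _j ∈ bx m n, C₁ * ((((m : ℝ) + 2) * n) ^ N * wt N u) := Finset.sum_le_sum hterm
    _ = ((bx m n).card : ℝ) * (C₁ * ((((m : ℝ) + 2) * n) ^ N * wt N u)) := by
        rw [Finset.sum_const, nsmul_eq_mul]
    _ ≤ (3 * (n : ℝ)) ^ (m + 2) * (C₁ * ((((m : ℝ) + 2) * n) ^ N * wt N u)) :=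
        mul_le_mul_of_nonneg_right hcard (by positivity)
    _ = _ := by
        rw [mul_pow, mul_pow, pow_add (n : ℝ) (m + 2) N]
        ring

/-- the far part, one cap -/
theorem far_wt (hSCH : T_SCH) (hWT3 : T_WT3) (hWT1 : T_WT1) (hWM : T_WM) (hPUB : T_PUB)
    {β : E m → ℂ} (hβ : IsPU β) {Ψ : Z m → ℂ} {ψ : Z m → ℝ}
    (hΨ : IsPsi Ψ ψ) (N M : ℕ) (D : ℝ) (hD : 0 ≤ D) :
    ∃ C : ℝ≥0, ∀ (G G'' : Z m → ℂ) (η' : E m) (σ r : ℝ) (c : Z m) (n : ℕ),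
      TC G → TC G'' → (∀ ζ, G'' ζ ≠ 0 → 1 / 4 ≤ ζ.1 ∧ ζ.1 ≤ 8) → 0 < σ → 1 ≤ r →
      1 ≤ D * r * σ → ‖η'‖ ≤ D * r * σ → 1 ≤ n →
      (∀ z, TF G'' z = TF G z * (1 - ((ka ψ n (r⁻¹ • (z - c)) : ℝ) : ℂ))) →
      ∫⁻ z, ‖TP β η' σ G'' z‖ₑ ^ 2 * ENNReal.ofReal (wt (N + M) (r⁻¹ • (z - c))) ≤
        C * ENNReal.ofReal (((n : ℝ) ^ M)⁻¹) *
          ∫⁻ z, ‖TF G z‖ₑ ^ 2 * ENNReal.ofReal (wt N (r⁻¹ • (z - c))) := by
  obtain ⟨Ca, hCa, hka⟩ := one_sub_ka hSCH hWT3 hΨ M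
  obtain ⟨Cβ, hCβ, hφ⟩ := hPUB m (N + M + m + 3) β hβ
  obtain ⟨C₃, hC₃⟩ := hWM m (N + M) (N + M + m + 3) D (by omega) hD
  have hCβ0 : 0 < Cβ := by linarith
  refine ⟨(Cβ ^ 2 * Ca).toNNReal * C₃, ?_⟩
  intro G G'' η' σ r c n hG hG'' hsup hσ hr h1 h2 hn hGG
  have hr0 : 0 < r := by linarith
  have hn0 : (0 : ℝ) < n := by exact_mod_cast hn
  have hwt : ∀ z : Z m, r⁻¹ • Lo (0 : E m) 1 z - r⁻¹ • c = r⁻¹ • (z - c) := by
    intro z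
    rw [Lo_zero_one, smul_sub]
  have h3 := hC₃ _ hφ 0 η' 1 σ r (r⁻¹ • c) G'' one_pos hσ hr h1 (by rwa [sub_zero]) hG'' hsup
  simp only [hwt] at h3
  have h4 : ∀ z, ‖TP β η' σ G'' z‖ₑ ^ 2 = ENNReal.ofReal (Cβ ^ 2) *
      ‖TP (fun x => ((Cβ⁻¹ : ℝ) : ℂ) * β x) η' σ G'' z‖ₑ ^ 2 := by
    intro z
    rw [TP_smul, enorm_mul, mul_pow]
    have h5 : ‖((Cβ⁻¹ : ℝ) : ℂ)‖ₑ = ENNReal.ofReal Cβ⁻¹ := by
      rw [← ofReal_norm, Complex.norm_real, Real.norm_of_nonneg (by positivity)]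
    rw [h5, ← mul_assoc, ← ENNReal.ofReal_pow (by positivity),
      ← ENNReal.ofReal_mul (by positivity), ← mul_pow, mul_inv_cancel₀ hCβ0.ne', one_pow,
      ENNReal.ofReal_one, one_mul]
  have hpt : ∀ z, ‖TF G'' z‖ₑ ^ 2 * ENNReal.ofReal (wt (N + M) (r⁻¹ • (z - c))) ≤
      ENNReal.ofReal (Ca * ((n : ℝ) ^ M)⁻¹) *
        (‖TF G z‖ₑ ^ 2 * ENNReal.ofReal (wt N (r⁻¹ • (z - c)))) := by
    intro z
    set u : Z m := r⁻¹ • (z - c) with hu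
    obtain ⟨hk0, hk1⟩ := ka_bounds hΨ n u
    have h6 : ‖(1 : ℂ) - ((ka ψ n u : ℝ) : ℂ)‖ₑ ^ 2 ≤
        ENNReal.ofReal (Ca * (1 + ‖u‖) ^ M * ((n : ℝ) ^ M)⁻¹) := by
      have h12 : (1 : ℂ) - ((ka ψ n u : ℝ) : ℂ) = ((1 - ka ψ n u : ℝ) : ℂ) := by
        push_cast
        rfl
      rw [h12, ← ofReal_norm, Complex.norm_real,
        Real.norm_of_nonneg (by linarith), ← ENNReal.ofReal_pow (by linarith)]
      refine ENNReal.ofReal_le_ofReal (le_trans ?_ (hka n u hn))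
      nlinarith
    have h7 : (1 + ‖u‖) ^ M * wt (N + M) u = wt N u := by
      rw [(hWT1 m N).2.2.2.2.2.1 u M]
      have h8 : wt M u = ((1 + ‖u‖) ^ M)⁻¹ := rfl
      have h9 : (0 : ℝ) < (1 + ‖u‖) ^ M := by positivity
      rw [h8, mul_comm, mul_assoc, inv_mul_cancel₀ h9.ne', mul_one]
    rw [hGG z, enorm_mul, mul_pow]
    calc ‖TF G z‖ₑ ^ 2 * ‖(1 : ℂ) - ((ka ψ n u : ℝ) : ℂ)‖ₑ ^ 2 *
          ENNReal.ofReal (wt (N + M) u)
        ≤ ‖TF G z‖ₑ ^ 2 * ENNReal.ofReal (Ca * (1 + ‖u‖) ^ M * ((n : ℝ) ^ M)⁻¹) *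
          ENNReal.ofReal (wt (N + M) u) :=
          mul_le_mul' (mul_le_mul' le_rfl h6) le_rfl
      _ = ‖TF G z‖ₑ ^ 2 * ENNReal.ofReal (Ca * ((n : ℝ) ^ M)⁻¹ *
          ((1 + ‖u‖) ^ M * wt (N + M) u)) := by
          rw [mul_assoc, ← ENNReal.ofReal_mul (by positivity)]
          congr 2
          ring
      _ = _ := by
          rw [h7, ENNReal.ofReal_mul (by positivity)]
          ring
  calc ∫⁻ z, ‖TP β η' σ G'' z‖ₑ ^ 2 * ENNReal.ofReal (wt (N + M) (r⁻¹ • (z - c)))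
      = ENNReal.ofReal (Cβ ^ 2) *
        ∫⁻ z, ‖TP (fun x => ((Cβ⁻¹ : ℝ) : ℂ) * β x) η' σ G'' z‖ₑ ^ 2 *
          ENNReal.ofReal (wt (N + M) (r⁻¹ • (z - c))) := by
        rw [← lintegral_const_mul' _ _ ENNReal.ofReal_ne_top]
        refine lintegral_congr fun z => ?_
        rw [h4 z, mul_assoc]
    _ ≤ ENNReal.ofReal (Cβ ^ 2) * (C₃ * ∫⁻ z, ‖TF G'' z‖ₑ ^ 2 *
          ENNReal.ofReal (wt (N + M) (r⁻¹ • (z - c)))) := mul_le_mul' le_rfl h3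
    _ ≤ ENNReal.ofReal (Cβ ^ 2) * (C₃ * (ENNReal.ofReal (Ca * ((n : ℝ) ^ M)⁻¹) *
          ∫⁻ z, ‖TF G z‖ₑ ^ 2 * ENNReal.ofReal (wt N (r⁻¹ • (z - c))))) := by
        refine mul_le_mul' le_rfl (mul_le_mul' le_rfl ?_)
        rw [← lintegral_const_mul' _ _ ENNReal.ofReal_ne_top]
        exact lintegral_mono hpt
    _ = _ := by
        rw [ENNReal.ofReal_mul hCa.le]
        push_cast
        have h10 : (((Cβ ^ 2 * Ca).toNNReal : ℝ≥0) : ℝ≥0∞) =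
            ENNReal.ofReal (Cβ ^ 2) * ENNReal.ofReal Ca := by
          rw [← ENNReal.ofReal_mul (by positivity)]
          rfl
        rw [h10]
        ring

end

theorem pf_RLW (hMOD : T_MOD) (hPLN : T_PLN) (hPSX : T_PSX) (hWM : T_WM) (hPUB : T_PUB)
    (hPUS : T_PUS) (hWT1 : T_WT1) (hWT3 : T_WT3) (hSCH : T_SCH) (hCPS : T_CPS) : T_RLW := by
  intro m N β δ hβ hδ _
  obtain ⟨Ψ, ψ, hΨ⟩ := hPSX m
  obtain ⟨-, -, Cp, hCp, hcard, -, hctr⟩ := hPUS m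
  set q : ℕ := m + 2 + N with hq
  have hq0 : (0 : ℝ) < q := by
    have : 0 < q := by omega
    exact_mod_cast this
  set dl : ℝ := δ / q with hdl
  have hdl0 : 0 < dl := by positivity
  set M : ℕ := ⌈(m : ℝ) / (2 * dl)⌉₊ with hM
  have hM1 : (m : ℝ) / 2 ≤ dl * M := by
    have h1 : (m : ℝ) / (2 * dl) ≤ M := Nat.le_ceil _
    rw [div_le_iff₀ (by positivity)] at h1
    linarith
  obtain ⟨C₁, hC₁, hnear⟩ := ka_le_wt hSCH hWT1 hΨ N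
  obtain ⟨C₂, hfar⟩ := far_wt hSCH hWT3 hWT1 hWM hPUB hβ hΨ N M (max 1 Cp) (by positivity)
  refine ⟨N + M, 4 * ((C₁ * 2 ^ q).toNNReal + C₂ * Cp.toNNReal), by omega, ?_⟩
  intro R c G I hR hI hG hsup
  have hR0 : 0 < R := by linarith
  set r : ℝ := Real.sqrt R with hr
  have hr1 : 1 ≤ r := by
    rw [hr, Real.one_le_sqrt]
    exact hR
  have hr0 : 0 < r := by linarith
  have hσr : sR R = r⁻¹ := rfl
  have hσ0 : 0 < sR R := by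
    rw [hσr]
    positivity
  have hσ1 : sR R ≤ 1 := by
    rw [hσr]
    exact inv_le_one_of_one_le₀ hr1
  have hrσ : r * sR R = 1 := by
    rw [hσr, mul_inv_cancel₀ hr0.ne']
  set n : ℕ := ⌈R ^ dl⌉₊ with hn
  have hRd1 : 1 ≤ R ^ dl := Real.one_le_rpow hR hdl0.le
  have hn1 : R ^ dl ≤ n := Nat.le_ceil _
  have hn2 : (n : ℝ) ≤ 2 * R ^ dl := by
    have := Nat.ceil_lt_add_one (a := R ^ dl) (by linarith)
    linarith
  have hn3 : 1 ≤ n := by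
    have : (1 : ℝ) ≤ n := by linarith
    exact_mod_cast this
  have hn0 : (0 : ℝ) < n := by linarith
  obtain ⟨G', hG', hTG', hsG'⟩ := near_part hMOD (η := (0 : E m)) (s := 1) (r := r) hG hΨ.1
    one_pos hr0 (bx m n) (fun j => zc j + r⁻¹ • c)
  have hTG2 : ∀ z, TF G' z = TF G z * ((ka ψ n (r⁻¹ • (z - c)) : ℝ) : ℂ) := by
    intro z
    rw [hTG']
    congr 1
    unfold ka
    rw [Complex.ofReal_sum]
    refine Finset.sum_congr rfl fun j _ => ?_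
    rw [hΨ.2.2.1]
    congr 1
    rw [Lo_zero_one, smul_sub]
    abel
  have hG'' : TC (fun ζ => G ζ - G' ζ) := TC_sub hG hG'
  have hsup1 : ∀ ζ, G' ζ ≠ 0 → 1 / 4 ≤ ζ.1 ∧ ζ.1 ≤ 8 := by
    intro ζ hζ
    obtain ⟨ζ₁, ζ₂, h3, h4, h5⟩ := hsG' ζ hζ
    have h6 := hsup ζ₁ h3
    have h7 : |ζ₂.1| ≤ 1 / 1000 := by
      refine le_trans ?_ (hΨ.2.1 ζ₂ h4)
      rw [← Real.norm_eq_abs]
      exact norm_fst_le ζ₂
    have h8 : ζ.1 = ζ₁.1 + r⁻¹ * ζ₂.1 := by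
      rw [h5]
      rfl
    have h9 : |r⁻¹ * ζ₂.1| ≤ 1 / 1000 := by
      rw [abs_mul, abs_of_pos (inv_pos.2 hr0)]
      have : r⁻¹ ≤ 1 := inv_le_one_of_one_le₀ hr1
      have h10 : 0 ≤ |ζ₂.1| := abs_nonneg _
      nlinarith
    rw [abs_le] at h9
    rw [h8]
    constructor <;> linarith [h9.1, h9.2, h6.1, h6.2]
  have hsup0 : ∀ ζ, G ζ ≠ 0 → 1 / 4 ≤ ζ.1 ∧ ζ.1 ≤ 8 := by
    intro ζ hζ
    have := hsup ζ hζ
    constructor <;> linarith [this.1, this.2]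
  have hsup2 : ∀ ζ, G ζ - G' ζ ≠ 0 → 1 / 4 ≤ ζ.1 ∧ ζ.1 ≤ 8 := by
    intro ζ hζ
    by_cases h3 : G ζ = 0
    · refine hsup1 ζ fun h4 => hζ ?_
      rw [h3, h4, sub_zero]
    · exact hsup0 ζ h3
  have hTG3 : ∀ z, TF (fun ζ => G ζ - G' ζ) z =
      TF G z * (1 - ((ka ψ n (r⁻¹ • (z - c)) : ℝ) : ℂ)) := by
    intro z
    rw [TF_sub hG hG', hTG2]
    ring
  set J : ℝ≥0∞ := ∫⁻ z, ‖TF G z‖ₑ ^ 2 * ENNReal.ofReal (wt N (r⁻¹ • (z - c))) with hJ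
  set W : Z m → ℝ≥0∞ := fun z => ENNReal.ofReal (wt (N + M) (r⁻¹ • (z - c))) with hW
  -- the near part
  have h1 : ∑ k ∈ I, ∫⁻ z, ‖TP β (ctr (sR R) k) (sR R) G' z‖ₑ ^ 2 * W z ≤
      ENNReal.ofReal (C₁ * (n : ℝ) ^ q) * J := by
    calc ∑ k ∈ I, ∫⁻ z, ‖TP β (ctr (sR R) k) (sR R) G' z‖ₑ ^ 2 * W z
        ≤ ∑ k ∈ I, ∫⁻ z, ‖TP β (ctr (sR R) k) (sR R) G' z‖ₑ ^ 2 := by
          refine Finset.sum_le_sum fun k _ => lintegral_mono fun z => ?_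
          refine mul_le_of_le_one_right (by positivity) ?_
          exact ENNReal.ofReal_le_one.2 ((hWT1 m (N + M)).1 _).2
      _ ≤ ∫⁻ z, ‖TF G' z‖ₑ ^ 2 :=
          orth hPLN hPUS hCPS hβ hσ0 hG' (fun ζ hζ => (hsup1 ζ hζ).1) I
      _ ≤ ∫⁻ z, ENNReal.ofReal (C₁ * (n : ℝ) ^ q) *
          (‖TF G z‖ₑ ^ 2 * ENNReal.ofReal (wt N (r⁻¹ • (z - c)))) := by
          refine lintegral_mono fun z => ?_
          set u : Z m := r⁻¹ • (z - c) with hu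
          obtain ⟨hk0, hk1⟩ := ka_bounds hΨ n u
          have h2 : ‖((ka ψ n u : ℝ) : ℂ)‖ₑ ^ 2 ≤
              ENNReal.ofReal (C₁ * (n : ℝ) ^ q * wt N u) := by
            rw [← ofReal_norm, Complex.norm_real, Real.norm_of_nonneg hk0,
              ← ENNReal.ofReal_pow hk0]
            refine ENNReal.ofReal_le_ofReal (le_trans ?_ (hnear n u hn3))
            nlinarith
          rw [hTG2 z, enorm_mul, mul_pow]
          calc ‖TF G z‖ₑ ^ 2 * ‖((ka ψ n u : ℝ) : ℂ)‖ₑ ^ 2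
              ≤ ‖TF G z‖ₑ ^ 2 * ENNReal.ofReal (C₁ * (n : ℝ) ^ q * wt N u) :=
                mul_le_mul' le_rfl h2
            _ = _ := by
                rw [ENNReal.ofReal_mul (by positivity)]
                ring
      _ = _ := lintegral_const_mul' _ _ ENNReal.ofReal_ne_top
  -- the far part
  have h2 : ∀ k ∈ I, ∫⁻ z, ‖TP β (ctr (sR R) k) (sR R) (fun ζ => G ζ - G' ζ) z‖ₑ ^ 2 * W z ≤
      C₂ * ENNReal.ofReal (((n : ℝ) ^ M)⁻¹) * J := by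
    intro k hk
    refine hfar G _ (ctr (sR R) k) (sR R) r c n hG hG'' hsup2 hσ0 hr1 ?_ ?_ hn3 hTG3
    · rw [mul_assoc, hrσ, mul_one]
      exact le_max_left _ _
    · rw [mul_assoc, hrσ, mul_one]
      exact (hctr (sR R) k hσ0 hσ1 (hI hk)).trans (le_max_right _ _)
  have h3 : (I.card : ℝ) * ((n : ℝ) ^ M)⁻¹ ≤ Cp := by
    have h4 : (I.card : ℝ) ≤ Cp * r ^ m := by
      have h5 := hcard (sR R) hσ0 hσ1
      rw [hσr, inv_inv] at h5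
      refine le_trans ?_ h5
      exact_mod_cast Finset.card_le_card hI
    have h6 : r ^ m ≤ (n : ℝ) ^ M := by
      calc r ^ m = R ^ ((m : ℝ) / 2) := by
            rw [hr, Real.sqrt_eq_rpow, ← Real.rpow_natCast, ← Real.rpow_mul hR0.le]
            congr 1
            ring
        _ ≤ R ^ (dl * (M : ℝ)) := Real.rpow_le_rpow_of_exponent_le hR hM1
        _ = (R ^ dl) ^ M := by
            rw [Real.rpow_mul hR0.le, Real.rpow_natCast]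
        _ ≤ (n : ℝ) ^ M := pow_le_pow_left₀ (by positivity) hn1 M
    rw [← div_eq_mul_inv, div_le_iff₀ (by positivity)]
    exact h4.trans (mul_le_mul_of_nonneg_left h6 hCp.le)
  have hsplit : ∀ k z, ‖TP β (ctr (sR R) k) (sR R) G z‖ₑ ^ 2 ≤
      4 * (‖TP β (ctr (sR R) k) (sR R) G' z‖ₑ ^ 2 +
      ‖TP β (ctr (sR R) k) (sR R) (fun ζ => G ζ - G' ζ) z‖ₑ ^ 2) := by
    intro k z
    have h4 := TP_sub hCPS (η := ctr (sR R) k) hβ.1 hσ0 hG hG'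
      (fun ζ hζ => (hsup0 ζ hζ).1) (fun ζ hζ => (hsup1 ζ hζ).1) z
    have h5 : TP β (ctr (sR R) k) (sR R) G z = TP β (ctr (sR R) k) (sR R) G' z +
        TP β (ctr (sR R) k) (sR R) (fun ζ => G ζ - G' ζ) z := by
      rw [h4]
      ring
    rw [h5]
    exact (pow_le_pow_left' (enorm_add_le _ _) 2).trans (add_sq_le _ _)
  have hWm : Measurable W := by
    have h4 : Continuous fun z : Z m => wt (N + M) (r⁻¹ • (z - c)) :=
      (hWT1 m (N + M)).2.1.comp (by fun_prop)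
    exact h4.measurable.ennreal_ofReal
  have hmeas : ∀ k, Measurable (fun z => ‖TP β (ctr (sR R) k) (sR R) G' z‖ₑ ^ 2 * W z) := by
    intro k
    have h4 := hCPS m β (ctr (sR R) k) (sR R) G' hβ.1 hσ0 hG' (fun ζ hζ => (hsup1 ζ hζ).1)
    exact (((hSCH m _ h4).1.measurable.enorm).pow_const 2).mul hWm
  have hnq : C₁ * (n : ℝ) ^ q ≤ C₁ * 2 ^ q * R ^ δ := by
    rw [mul_assoc]
    refine mul_le_mul_of_nonneg_left ?_ hC₁.le
    calc (n : ℝ) ^ q ≤ (2 * R ^ dl) ^ q := pow_le_pow_left₀ hn0.le hn2 q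
      _ = 2 ^ q * R ^ δ := by
          rw [mul_pow, ← Real.rpow_natCast (R ^ dl) q, ← Real.rpow_mul hR0.le, hdl,
            div_mul_cancel₀ _ hq0.ne']
  have hRδ : (1 : ℝ≥0∞) ≤ ENNReal.ofReal (R ^ δ) := by
    rw [← ENNReal.ofReal_one]
    exact ENNReal.ofReal_le_ofReal (Real.one_le_rpow hR hδ.le)
  calc ∑ k ∈ I, ∫⁻ z, ‖TP β (ctr (sR R) k) (sR R) G z‖ₑ ^ 2 * W z
      ≤ ∑ k ∈ I, 4 * ((∫⁻ z, ‖TP β (ctr (sR R) k) (sR R) G' z‖ₑ ^ 2 * W z) +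
        ∫⁻ z, ‖TP β (ctr (sR R) k) (sR R) (fun ζ => G ζ - G' ζ) z‖ₑ ^ 2 * W z) := by
        refine Finset.sum_le_sum fun k _ => ?_
        rw [← lintegral_add_left (hmeas k), ← lintegral_const_mul' _ _ (by finiteness)]
        refine lintegral_mono fun z => ?_
        calc ‖TP β (ctr (sR R) k) (sR R) G z‖ₑ ^ 2 * W z
            ≤ (4 * (‖TP β (ctr (sR R) k) (sR R) G' z‖ₑ ^ 2 +
              ‖TP β (ctr (sR R) k) (sR R) (fun ζ => G ζ - G' ζ) z‖ₑ ^ 2)) * W z :=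
              mul_le_mul' (hsplit k z) le_rfl
          _ = _ := by ring
    _ = 4 * ((∑ k ∈ I, ∫⁻ z, ‖TP β (ctr (sR R) k) (sR R) G' z‖ₑ ^ 2 * W z) +
        ∑ k ∈ I, ∫⁻ z,
          ‖TP β (ctr (sR R) k) (sR R) (fun ζ => G ζ - G' ζ) z‖ₑ ^ 2 * W z) := by
        rw [← Finset.mul_sum, Finset.sum_add_distrib]
    _ ≤ 4 * (ENNReal.ofReal (C₁ * (n : ℝ) ^ q) * J +
        ∑ _k ∈ I, C₂ * ENNReal.ofReal (((n : ℝ) ^ M)⁻¹) * J) :=
        mul_le_mul' le_rfl (add_le_add h1 (Finset.sum_le_sum h2))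
    _ = 4 * (ENNReal.ofReal (C₁ * (n : ℝ) ^ q) +
        C₂ * ENNReal.ofReal (I.card * ((n : ℝ) ^ M)⁻¹)) * J := by
        rw [Finset.sum_const, nsmul_eq_mul, ENNReal.ofReal_mul (Nat.cast_nonneg _),
          ENNReal.ofReal_natCast]
        ring
    _ ≤ 4 * (ENNReal.ofReal (C₁ * 2 ^ q) * ENNReal.ofReal (R ^ δ) +
        C₂ * (ENNReal.ofReal Cp * ENNReal.ofReal (R ^ δ))) * J := by
        refine mul_le_mul' (mul_le_mul' le_rfl (add_le_add ?_ (mul_le_mul' le_rfl ?_))) le_rfl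
        · rw [← ENNReal.ofReal_mul (by positivity)]
          exact ENNReal.ofReal_le_ofReal hnq
        · calc ENNReal.ofReal (I.card * ((n : ℝ) ^ M)⁻¹) ≤ ENNReal.ofReal Cp * 1 := by
                rw [mul_one]
                exact ENNReal.ofReal_le_ofReal h3
            _ ≤ _ := mul_le_mul' le_rfl hRδ
    _ = _ := by
        push_cast
        have h4 : (((C₁ * 2 ^ q).toNNReal : ℝ≥0) : ℝ≥0∞) = ENNReal.ofReal (C₁ * 2 ^ q) := rfl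
        have h5 : ((Cp.toNNReal : ℝ≥0) : ℝ≥0∞) = ENNReal.ofReal Cp := rfl
        rw [h4, h5]
        ring

end Pool.Agent.H25.HDS
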